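import Pool.Agent.AT6.Stmts1
import Pool.Agent.Helper32_AT5.ZIM

/-!
# Squad AT6, row YID: the inner product with an irreducible character through the group ring
-/

open scoped BigOperators

noncomputable section

namespace Pool.Agent.PP.T6.H88

open Pool.Agent.Helper51_AWC Pool.Agent.Helper79_WRA Pool.Agent.PP Pool.Agent.PP.KF
open Pool.Agent.PP.K9 Pool.Agent.PP.K9.H97 Pool.Agent.PP.H75 Pool.Agent.PP.T3 Pool.Agent.PP.T2

attribute [local instance] Ideal.Quotient.field

/-- convolution of a class function with an irreducible character -/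
theorem conv_irr {G : Type} [Group G] [Fintype G] (f : G → ℂ)
    (hf : ∀ x y, f (y * x * y⁻¹) = f x) {χ : G → ℂ} (hχ : χ ∈ Irr G) (x : G) :
    ∑ g, f g * χ (g⁻¹ * x) = (∑ g, f g * χ g⁻¹) * χ x / χ 1 := by
  have h1 := irr_one_ne hχ
  obtain ⟨n, ρ, hρ, rfl⟩ := hχ
  obtain ⟨c, hc⟩ := act_scalar ρ (fun g => f g⁻¹) (fun g h => by
    have := hf g⁻¹ h
    rw [← this]
    congr 1
    group)
  have h2 : ∑ g, f g * ρ.character g⁻¹ = c * ρ.character 1 := by
    have h3 := act_trace ρ (fun g => f g⁻¹)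
    rw [hc, map_smul, smul_eq_mul] at h3
    have h4 : LinearMap.trace ℂ (Fin n → ℂ) LinearMap.id = ρ.character 1 := by
      simp [Representation.character]
    rw [h4] at h3
    rw [h3, ← Equiv.sum_comp (Equiv.inv G)]
    simp
  have h5 : ∑ g, f g * ρ.character (g⁻¹ * x) = c * ρ.character x := by
    have h6 : LinearMap.trace ℂ (Fin n → ℂ) (act ρ (fun g => f g⁻¹) * ρ x) =
        ∑ g, f g⁻¹ * ρ.character (g * x) := by
      unfold act
      rw [Finset.sum_mul, map_sum]
      refine Finset.sum_congr rfl fun g _ => ?_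
      simp [Representation.character]
    have h7 : LinearMap.trace ℂ (Fin n → ℂ) (act ρ (fun g => f g⁻¹) * ρ x) =
        c * ρ.character x := by
      rw [hc]
      have h8 : (c • (LinearMap.id : (Fin n → ℂ) →ₗ[ℂ] (Fin n → ℂ))) * ρ x = c • ρ x := by
        ext v
        simp
      rw [h8, map_smul, smul_eq_mul]
      rfl
    rw [← h7, h6, ← Equiv.sum_comp (Equiv.inv G)]
    simp
  rw [h5, h2]
  field_simp

theorem yid (hips : IpsStmt) (hsvv : SvvStmt) : YidStmt := by
  classical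
  intro ℓ _ M _ hM G _ _ v hv b hb θ hθ χ hχ y
  have : Fintype G := Fintype.ofFinite G
  have hsc := (hsvv ℓ M hM G v b hb θ hθ).2.2.1
  have hI := hips ℓ M hM G v hv b hb θ χ hθ (fun x y => irr_conj hχ x y)
  have h1 : ∑ g, sv M ℓ v b θ g * χ g⁻¹ = Nat.card G * Pm M ℓ v b θ χ := by
    rw [← hI, finsum_eq_sum_of_fintype]
    refine Finset.sum_congr rfl fun g _ => ?_
    rw [Pool.Agent.PP.H94.irr_star hχ g]
  rw [finsum_eq_sum_of_fintype]
  have h2 : ∀ g : G, T8.fv y g⁻¹ χ = ∑ h, y h * χ (g⁻¹ * h) := by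
    intro g
    unfold T8.fv
    rw [finsum_eq_sum_of_fintype]
  have h3 : chv y χ = ∑ h, y h * χ h := by
    unfold chv
    rw [finsum_eq_sum_of_fintype]
  have h4 : ∑ g, sv M ℓ v b θ g * T8.fv y g⁻¹ χ =
      ∑ h, y h * ∑ g, sv M ℓ v b θ g * χ (g⁻¹ * h) := by
    simp only [h2, Finset.mul_sum]
    rw [Finset.sum_comm]
    refine Finset.sum_congr rfl fun h _ => Finset.sum_congr rfl fun g _ => ?_
    ring
  rw [h4, h3]
  simp only [conv_irr _ (fun x y => hsc x y) hχ, h1]
  rw [Finset.mul_sum, Finset.sum_div, Finset.sum_mul]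
  refine Finset.sum_congr rfl fun h _ => ?_
  ring

end Pool.Agent.PP.T6.H88
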